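import Pool.Agent.Y223.G.Stm11
import Pool.Agent.Y363.G.Rglu
import Pool.Agent.Y739.G.RGFT
import Pool.Agent.Y290.G.RGCH
import Pool.Agent.Y948.GG.Rgst

/-!
# Project G (helper223), job W6-RECHW: the graded algebra of a chart, from general graded algebras

An adaptation of the files Rech and Relu of Y614.
-/

set_option autoImplicit false

namespace Pool.Agent.Y710.H

open IsLocalRing Pool.Agent.W418.LU2 Pool.Agent.Y223.G
open Pool.Agent.Y290.G (regular_cmp)

section basic

variable {k O K N : Type} [CommRing k] [CommRing O] [Field K] [Algebra O K] [Algebra k K]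
  {C : Subalgebra O K} {R : N → Subalgebra k (LP K)}

theorem mem_RX {f : LP K} : f ∈ RX k C R ↔ f ∈ RR k 1 1 ⊤ 0 C ∧ ∀ i, f ∈ R i := by
  unfold RX
  rw [Algebra.mem_inf, Algebra.mem_iInf]

theorem RX_le (i : N) : RX k C R ≤ R i := fun _ hf => (mem_RX.1 hf).2 i

theorem low' {R : Subalgebra k (LP K)} (hs : hm (-1) 1 ∈ R) {d e : ℤ} {x : K} (h : hm d x ∈ R)
    (he : e ≤ d) : hm e x ∈ R := by
  have h1 := R.mul_mem (R.pow_mem hs (d - e).toNat) h
  rw [hm_pow, one_pow, hm_mul, one_mul] at h1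
  have h2 : ((d - e).toNat : ℤ) * -1 + d = e := by
    rw [Int.toNat_of_nonneg (by omega)]
    ring
  rwa [h2] at h1

end basic

section

variable {k O K G : Type} [CommRing k] [CommRing O] [IsDomain O]
  [IsDedekindDomain O] [Field K] [Group G] [Algebra k O] [Algebra O K] [Algebra k K]
  [IsScalarTower k O K] {ρ : G →* (K ≃ₐ[k] K)} {T : G →* (O ≃ₐ[k] O)} {N : Type}
  {𝔔 : N → Ideal O} {p l : N → ℕ} {τ : N → G} {π : O} {C : Subalgebra O K}
  {R : N → Subalgebra k (LP K)}

omit [IsDomain O] [IsDedekindDomain O] in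
theorem le_one (hW : WCt k O K G ρ T 𝔔 τ π C R) (i : N) {f : LP K} (hf : f ∈ R i) :
    f ∈ RR k (1 : K ≃ₐ[k] K) 1 (⊤ : Ideal O) 0 C :=
  mem_of_comp _ fun d => Pool.Agent.Y363.G.one_hm (hW.d0 i d _ (hW.gr i f hf d)) d

omit [IsDomain O] [IsDedekindDomain O] in
theorem alg_mem (hW : WCt k O K G ρ T 𝔔 τ π C R) (i : N) (s : O) :
    hm 0 (algebraMap O K s) ∈ R i := hW.c0 i _ (C.algebraMap_mem s)

omit [IsDomain O] [IsDedekindDomain O] in
theorem mult_mem (hW : WCt k O K G ρ T 𝔔 τ π C R) (i : N) {s : O} (hs : s ∈ 𝔔 i) {f : LP K}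
    (hf : f ∈ RR k (1 : K ≃ₐ[k] K) 1 (⊤ : Ideal O) 0 C) {D : ℕ}
    (hD : ∀ d ∈ f.coeff.support, d ≤ (D : ℤ)) : hm 0 (algebraMap O K s) ^ D * f ∈ R i := by
  rw [eq_sum_hm f, Finset.mul_sum]
  refine (R i).sum_mem fun d hd => ?_
  have hc : f.coeff d ∈ C := RR_coeff (τ := (1 : K ≃ₐ[k] K)) (fun c hc => hc) hf d
  have h1 := (R i).mul_mem ((R i).pow_mem (hW.up i s hs) D) (hW.c0 i _ hc)
  rw [hm_pow, mul_one, hm_mul, add_zero] at h1
  have h2 := low' (hW.ss i) h1 (hD d hd)
  rw [hm_pow, hm_mul, mul_zero, zero_add]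
  exact h2

omit [IsDomain O] [IsDedekindDomain O] in
theorem glu1 (hW : WCt k O K G ρ T 𝔔 τ π C R) (i : N) (s : O) (hs : ∀ j, j ≠ i → s ∈ 𝔔 j)
    (f : LP K) (hf : f ∈ R i) : ∃ n : ℕ, hm 0 (algebraMap O K s) ^ n * f ∈ RX k C R := by
  have hf1 := le_one hW i hf
  obtain ⟨D, hD⟩ := Pool.Agent.Y363.G.exists_deg f
  refine ⟨D, mem_RX.2 ⟨?_, fun j => ?_⟩⟩
  · exact Subalgebra.mul_mem _ (Subalgebra.pow_mem _ (Pool.Agent.Y363.G.hm_alg one_pos s) _) hf1
  · by_cases hj : j = i
    · subst hj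
      exact Subalgebra.mul_mem _ (Subalgebra.pow_mem _ (alg_mem hW j s) _) hf
    · exact mult_mem hW j (hs j hj) hf1 hD

end

section

variable {k O K G : Type} [CommRing k] [IsNoetherianRing k] [CommRing O] [IsDomain O]
  [IsDedekindDomain O] [Field K] [Group G] [Algebra k O] [Algebra O K] [Algebra k K]
  [IsScalarTower k O K] {ρ : G →* (K ≃ₐ[k] K)} {T : G →* (O ≃ₐ[k] O)} {N : Type} [Finite N]
  {𝔔 : N → Ideal O} {p l : N → ℕ} {τ : N → G} {π : O} {C : Subalgebra O K}
  {R : N → Subalgebra k (LP K)}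

lemma re_ft (hRFT : S_RFT0) (hL : LocE k O K G ρ T 𝔔 p l τ π)
    (hW : WCt k O K G ρ T 𝔔 τ π C R) : Algebra.FiniteType k (RX k C R) := by
  classical
  cases nonempty_fintype N
  have hR0 : Algebra.FiniteType k (RR k (1 : K ≃ₐ[k] K) 1 (⊤ : Ideal O) 0 C) :=
    hRFT k O K 1 one_pos 1 ⊤ 0 hL.ft (fun o => ⟨o, rfl⟩) C (fun c hc => hc) hW.ftC
  rcases isEmpty_or_nonempty N with hN | hN
  · have h : RX k C R = RR k (1 : K ≃ₐ[k] K) 1 (⊤ : Ideal O) 0 C := by
      unfold RX
      rw [iInf_of_empty, inf_top_eq]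
    rw [h]
    exact hR0
  · -- a partition of unity
    have hcop : (⨆ i ∈ (Finset.univ : Finset N), ⨅ (j) (_ : j ∈ (Finset.univ : Finset N))
        (_ : j ≠ i), 𝔔 j) = ⊤ := by
      rw [Ideal.iSup_iInf_eq_top_iff_pairwise Finset.univ_nonempty]
      intro i _ j _ hij
      exact Ideal.IsMaximal.coprime_of_ne (hL.mx i) (hL.mx j) fun h => hij (hL.dj i j h)
    have h1 : (1 : O) ∈ (⨆ i ∈ (Finset.univ : Finset N), ⨅ (j) (_ : j ∈ (Finset.univ : Finset N))
        (_ : j ≠ i), 𝔔 j) := by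
      rw [hcop]; exact Submodule.mem_top
    rw [Submodule.mem_iSup_finset_iff_exists_sum] at h1
    obtain ⟨μ, hμ⟩ := h1
    have hμj : ∀ i j, j ≠ i → (μ i : O) ∈ 𝔔 j := by
      intro i j hji
      have := (μ i).2
      simp only [Ideal.mem_iInf] at this
      exact this j (Finset.mem_univ j) hji
    rw [← Subalgebra.fg_iff_finiteType]
    refine Pool.Agent.Y739.G.fg_of_local (RX k C R) R
      (fun i => hm 0 (algebraMap O K (μ i))) ?_ RX_le
      (fun i => (Subalgebra.fg_iff_finiteType _).2 (hW.ft i)) ?_ ⟨Finset.univ, ?_⟩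
    · intro i
      exact mem_RX.2 ⟨RR_c one_pos (C.algebraMap_mem _), fun j => alg_mem hW j _⟩
    · intro i f hf
      exact glu1 hW i (μ i) (fun j hj => hμj i j hj) f hf
    · have h2 : ∀ t : Finset N, ∑ i ∈ t, (hm 0 (algebraMap O K (μ i)) : LP K) =
          hm 0 (algebraMap O K (∑ i ∈ t, (μ i : O))) := by
        intro t
        induction t using Finset.induction_on with
        | empty => simp [hm_zero]
        | insert i t hi ih => rw [Finset.sum_insert hi, Finset.sum_insert hi, ih, map_add, hm_add]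
      rw [h2, hμ, map_one, hm_one]

lemma re_ch (hWCH : S_WCH) (hRFT : S_RFT0) (hL : LocE k O K G ρ T 𝔔 p l τ π)
    (hW : WCt k O K G ρ T 𝔔 τ π C R) : Ch (RX k C R) := by
  classical
  have _ := Fintype.ofFinite N
  have hft : Algebra.FiniteType k (RX k C R) := re_ft hRFT hL hW
  have hns : IsNoetherianRing (RX k C R) := Algebra.FiniteType.isNoetherianRing k _
  have hC1 : ∀ c ∈ C, (1 : K ≃ₐ[k] K) c ∈ C := fun c hc => hc
  have hgr : Gr (RX k C R) := by
    intro f hf d
    rw [mem_RX] at hf ⊢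
    exact ⟨RR_gr f hf.1 d, fun i => hW.gr i f (hf.2 i) d⟩
  have hss : (hm (-1) 1 : LP K) ∈ RX k C R := mem_RX.2 ⟨RR_s, fun i => hW.ss i⟩
  have hmC : ∀ (d : ℤ) x, hm d x ∈ RX k C R → x ∈ C := fun d x h =>
    RR_mem_C hC1 (mem_RX.1 h).1
  have hCm : ∀ x ∈ C, hm 0 x ∈ RX k C R := fun x h =>
    mem_RX.2 ⟨RR_c one_pos h, fun i => hW.c0 i x h⟩
  have hcf : ∀ (d : ℤ) x, hm d x ∈ RX k C R → hm 0 x ∈ RX k C R := fun d x h =>
    hCm x (hmC d x h)
  have hOm : ∀ o : O, hm 0 (algebraMap O K o) ∈ RX k C R := fun o =>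
    hCm _ (C.algebraMap_mem o)
  -- regularity
  have hreg : IsRegularRing (RX k C R) := by
    rcases isEmpty_or_nonempty N with hN | hN
    · refine hWCH k K (RX k C R) hns hgr hss hcf C (C.val : C →+* K)
        Subtype.val_injective ?_ hW.rgC ?_
      · intro y
        constructor
        · intro h
          exact ⟨⟨y, hmC 0 y h⟩, rfl⟩
        · rintro ⟨c, rfl⟩
          exact hCm _ c.2
      · intro Q hQp hQ
        exfalso
        apply hQp.ne_top
        rw [Ideal.eq_top_iff_one]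
        refine hQ 1 1 one_pos ?_
        have h1 : ((C.val : C →+* K) 1 : K) = algebraMap O K 1 := by
          rw [map_one, map_one]
        rw [h1, Nat.cast_one]
        exact mem_RX.2 ⟨RR_e (Submodule.mem_top), fun i => isEmptyElim i⟩
    · rw [isRegularRing_iff]
      intro Q hQ
      -- an element outside `Q`
      obtain ⟨i, s, hs, hsQ⟩ : ∃ (i : N) (s : O), (∀ j, j ≠ i → s ∈ 𝔔 j) ∧
          (⟨hm 0 (algebraMap O K s), hOm s⟩ : RX k C R) ∉ Q := by
        by_contra hcon
        push Not at hcon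
        let φ : O →+* RX k C R :=
          { toFun := fun o => ⟨hm 0 (algebraMap O K o), hOm o⟩
            map_one' := by
              apply Subtype.ext
              change hm 0 (algebraMap O K 1) = 1
              rw [map_one, hm_one]
            map_mul' := fun a b => by
              apply Subtype.ext
              change hm 0 (algebraMap O K (a * b)) =
                hm 0 (algebraMap O K a) * hm 0 (algebraMap O K b)
              rw [hm_mul, map_mul, add_zero]
            map_zero' := by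
              apply Subtype.ext
              change hm 0 (algebraMap O K 0) = 0
              rw [map_zero, hm_zero]
            map_add' := fun a b => by
              apply Subtype.ext
              change hm 0 (algebraMap O K (a + b)) =
                hm 0 (algebraMap O K a) + hm 0 (algebraMap O K b)
              rw [map_add, hm_add] }
        have hpw : (((Finset.univ : Finset N) : Set N)).Pairwise
            fun i j => 𝔔 i ⊔ 𝔔 j = ⊤ := by
          intro i _ j _ hij
          exact (hL.mx i).coprime_of_ne (hL.mx j) (fun h => hij (hL.dj i j h))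
        have htop := (Ideal.iSup_iInf_eq_top_iff_pairwise Finset.univ_nonempty 𝔔).2 hpw
        have hle : (⨆ i ∈ (Finset.univ : Finset N), ⨅ (j) (_ : j ∈ (Finset.univ : Finset N))
            (_ : j ≠ i), 𝔔 j) ≤ Q.comap φ := by
          refine iSup_le fun i => iSup_le fun _ => ?_
          intro s hs
          refine hcon i s fun j hj => ?_
          simp only [Ideal.mem_iInf] at hs
          exact hs j (Finset.mem_univ _) hj
        rw [htop, top_le_iff] at hle
        have h1 : (1 : O) ∈ Q.comap φ := by rw [hle]; trivial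
        rw [Ideal.mem_comap, map_one] at h1
        exact hQ.ne_top ((Ideal.eq_top_iff_one _).2 h1)
      have hs0 : algebraMap O K s ≠ 0 := by
        intro h0
        apply hsQ
        have h1 : (⟨hm 0 (algebraMap O K s), hOm s⟩ : RX k C R) = 0 := by
          apply Subtype.ext
          change hm 0 (algebraMap O K s) = 0
          rw [h0, hm_zero]
        rw [h1]
        exact Q.zero_mem
      exact regular_cmp (RX_le i) (hW.rg i) (hOm s) (isUnit_hm hs0) (glu1 hW i s hs) Q hsQ
  refine ⟨hft, hgr, hss, hcf, ?_, ?_⟩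
  · choose e he he0 using fun i => Submodule.exists_mem_ne_zero_of_ne_bot (hL.ne i)
    refine ⟨1, algebraMap O K (∏ i, e i), one_pos, ?_, ?_⟩
    · intro h
      rw [← map_zero (algebraMap O K)] at h
      exact Finset.prod_ne_zero_iff.2 (fun i _ => he0 i) (hL.inj h)
    · rw [Nat.cast_one]
      refine mem_RX.2 ⟨RR_e Submodule.mem_top, fun i => hW.up i _ ?_⟩
      rw [← Finset.mul_prod_erase _ _ (Finset.mem_univ i)]
      exact Ideal.mul_mem_right _ _ (he i)
  · intro n η hn _ hη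
    exact regular_loc hreg hn (isUnit_hm hη)

omit [IsNoetherianRing k] [Finite N] in
lemma re_st (hL : LocE k O K G ρ T 𝔔 p l τ π) (hW : WCt k O K G ρ T 𝔔 τ π C R) (g : G)
    (f : LP K) (hf : f ∈ RX k C R) : tl (ρ g) f ∈ RX k C R := by
  obtain ⟨hf0, hf1⟩ := mem_RX.1 hf
  refine mem_RX.2 ⟨?_, fun j => ?_⟩
  · exact Pool.Agent.Y948.GG.tl_RR (fun e _ => ⟨T g e, Submodule.mem_top, hL.com g e⟩)
      (hW.st g) (Or.inl rfl) f hf0
  · obtain ⟨i, hi, -⟩ := hL.cj g⁻¹ j
    refine hW.sg g i j (fun o => ?_) f (hf1 i)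
    rw [hi (T g o)]
    have h1 : T g⁻¹ (T g o) = o := by
      rw [← AlgEquiv.mul_apply, ← map_mul, inv_mul_cancel, map_one, AlgEquiv.one_apply]
    rw [h1]

end

/-- **The graded algebra of a chart.** -/
theorem t_RECHW : S_WCH → S_RFT0 → S_RECHW := by
  intro hWCH hRFT k O K G _ _ _ _ _ _ _ _ _ _ _ ρ T N _ 𝔔 p l τ π hL C R hW
  exact ⟨re_ch hWCH hRFT hL hW, fun g f hf => re_st hL hW g f hf⟩

end Pool.Agent.Y710.H
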